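import Pool.Agent.Y223.G.Stm9

/-!
# Fields of fractions of Laurent polynomials with an action (job H-EXT2)
-/

set_option autoImplicit false

namespace Pool.Agent.Y949.H

open Pool.Agent.Y223.G

section one

variable (k K : Type) [CommRing k] [Field K] [Algebra k K]

/-- the field of fractions of the Laurent polynomials -/
abbrev KK (K : Type) [Field K] : Type := FractionRing (LP K)

/-- the inclusion -/
noncomputable def eps : LP K →ₐ[k] KK K := IsScalarTower.toAlgHom k (LP K) (KK K)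

lemma eps_inj : Function.Injective (eps k K) := IsFractionRing.injective (LP K) (KK K)

lemma eps_frac (y : KK K) : ∃ a b : LP K, b ≠ 0 ∧ y = eps k K a / eps k K b := by
  obtain ⟨a, b, hb, h⟩ := IsFractionRing.div_surjective (LP K) y
  exact ⟨a, b, nonZeroDivisors.ne_zero hb, h.symm⟩

lemma eps_ext2 : Ext2 (eps k K) := ⟨eps_inj k K, eps_frac k K⟩

end one

section two

variable {k K K' L : Type} [CommRing k] [Field K] [Algebra k K] [Field K'] [Algebra k K']
  [Field L] [Algebra k L]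

lemma hom_ext {f g : KK K →ₐ[k] L} (h : ∀ a, f (eps k K a) = g (eps k K a)) : f = g := by
  apply AlgHom.ext
  intro x
  obtain ⟨a, b, -, rfl⟩ := eps_frac k K x
  rw [map_div₀, map_div₀, h, h]

/-- the extension of an injective homomorphism to the fields of fractions -/
noncomputable def lft (σ : LP K →ₐ[k] LP K') (hσ : Function.Injective σ) : KK K →ₐ[k] KK K' :=
  IsFractionRing.liftAlgHom (g := (eps k K').comp σ) (by
    intro a b h
    exact hσ (eps_inj k K' h))

lemma lft_eps (σ : LP K →ₐ[k] LP K') (hσ : Function.Injective σ) (a : LP K) :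
    lft σ hσ (eps k K a) = eps k K' (σ a) := by
  unfold lft
  rw [IsFractionRing.liftAlgHom_apply]
  exact IsFractionRing.lift_algebraMap _ _

/-- the map of the Laurent polynomials induced by a map of the coefficients -/
noncomputable def ph (ι : K →ₐ[k] K') : LP K →ₐ[k] LP K' := AddMonoidAlgebra.mapAlgHom ℤ ι

lemma ph_coeff (ι : K →ₐ[k] K') (f : LP K) (d : ℤ) : (ph ι f).coeff d = ι (f.coeff d) :=
  AddMonoidAlgebra.coeff_mapAlgHom _ _ _

lemma ph_inj (ι : K →ₐ[k] K') : Function.Injective (ph ι) := by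
  intro f g h
  apply AddMonoidAlgebra.coeff_injective
  ext d
  apply ι.toRingHom.injective
  change ι (f.coeff d) = ι (g.coeff d)
  rw [← ph_coeff, ← ph_coeff, h]

lemma ph_hm (ι : K →ₐ[k] K') (d : ℤ) (a : K) : ph ι (hm d a) = hm d (ι a) :=
  AddMonoidAlgebra.mapAlgHom_single _ _ _

lemma tl_coeff (τ : K ≃ₐ[k] K) (f : LP K) (d : ℤ) : (tl τ f).coeff d = τ (f.coeff d) :=
  AddMonoidAlgebra.coeff_mapAlgHom _ _ _

end two

section act

variable {k Y K G : Type} [CommRing k] [Field Y] [Field K] [Group G] [Algebra k Y] [Algebra k K]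
  (ι : Y →ₐ[k] K) (ρ : G →* (K ≃ₐ[k] K))

lemma tl_mul (g h : G) (f : LP K) : tl (ρ (g * h)) f = tl (ρ g) (tl (ρ h) f) := by
  apply AddMonoidAlgebra.coeff_injective
  ext d
  rw [tl_coeff, tl_coeff, tl_coeff, map_mul]
  rfl

lemma tl_one (f : LP K) : tl (ρ 1) f = f := by
  apply AddMonoidAlgebra.coeff_injective
  ext d
  rw [tl_coeff, map_one]
  rfl

lemma tl_fix (hι : ∀ x, (∀ g, ρ g x = x) ↔ ∃ y, ι y = x) (f : LP K) :
    (∀ g, tl (ρ g) f = f) ↔ ∃ g, ph ι g = f := by
  constructor
  · intro h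
    have h1 : ∀ d, ∃ y, ι y = f.coeff d := by
      intro d
      rw [← hι]
      intro g
      rw [← tl_coeff, h]
    choose y hy using h1
    refine ⟨∑ d ∈ f.coeff.support, hm d (y d), ?_⟩
    rw [map_sum]
    conv_rhs => rw [eq_sum_hm f]
    refine Finset.sum_congr rfl fun d _ => ?_
    rw [ph_hm, hy]
  · rintro ⟨f', rfl⟩ g
    apply AddMonoidAlgebra.coeff_injective
    ext d
    rw [tl_coeff, ph_coeff]
    exact (hι _).2 ⟨_, rfl⟩ g

/-- the action by endomorphisms -/
noncomputable def act0 : G →* (KK K →ₐ[k] KK K) where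
  toFun g := lft (tl (ρ g) : LP K →ₐ[k] LP K) (tl (ρ g)).injective
  map_one' := by
    apply hom_ext
    intro a
    rw [lft_eps]
    change eps k K (tl (ρ 1) a) = eps k K a
    rw [tl_one]
  map_mul' g h := by
    apply hom_ext
    intro a
    rw [lft_eps, AlgHom.mul_apply, lft_eps, lft_eps]
    change eps k K (tl (ρ (g * h)) a) = eps k K (tl (ρ g) (tl (ρ h) a))
    rw [tl_mul]

/-- the action by automorphisms -/
noncomputable def act : G →* (KK K ≃ₐ[k] KK K) :=
  (AlgEquiv.algHomUnitsEquiv k (KK K)).toMonoidHom.comp (act0 ρ).toHomUnits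

lemma act_eps (g : G) (a : LP K) : act ρ g (eps k K a) = eps k K (tl (ρ g) a) :=
  lft_eps (tl (ρ g) : LP K →ₐ[k] LP K) (tl (ρ g)).injective a

theorem t_ext2m [Finite G] (hι : ∀ x, (∀ g, ρ g x = x) ↔ ∃ y, ι y = x) :
    Ext2M ι (lft (ph ι) (ph_inj ι)) (eps k Y) (eps k K) ρ (act ρ) := by
  refine ⟨eps_ext2 k Y, eps_ext2 k K, act_eps ρ, ?_, ?_⟩
  · intro b a
    rw [lft_eps, ph_hm]
  · intro x
    constructor
    · intro h
      have := Fintype.ofFinite G
      obtain ⟨a, b, hb, hx⟩ := eps_frac k K x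
      classical
      set b' : LP K := ∏ g : G, tl (ρ g) b with hb'
      have hb'0 : b' ≠ 0 := by
        rw [hb', Finset.prod_ne_zero_iff]
        intro g _
        exact (map_ne_zero_iff _ (tl (ρ g)).injective).2 hb
      have hinv : ∀ g, tl (ρ g) b' = b' := by
        intro g
        rw [hb', map_prod]
        refine Fintype.prod_equiv (Equiv.mulLeft g) _ _ fun h => ?_
        rw [← tl_mul]
        rfl
      have hfac : b' = b * ∏ g ∈ Finset.univ.erase (1 : G), tl (ρ g) b := by
        rw [hb', ← Finset.mul_prod_erase _ _ (Finset.mem_univ (1 : G)), tl_one]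
      have heb : eps k K b ≠ 0 := (map_ne_zero_iff _ (eps_inj k K)).2 hb
      set a' : LP K := a * ∏ g ∈ Finset.univ.erase (1 : G), tl (ρ g) b with ha'
      have hxa : x * eps k K b' = eps k K a' := by
        rw [hfac, ha', map_mul, map_mul, hx]
        field_simp
      have hinva : ∀ g, tl (ρ g) a' = a' := by
        intro g
        apply eps_inj k K
        rw [← act_eps, ← hxa, map_mul, act_eps, hinv, h g]
      obtain ⟨a2, ha2⟩ := (tl_fix ι ρ hι a').1 hinva
      obtain ⟨b2, hb2⟩ := (tl_fix ι ρ hι b').1 hinv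
      refine ⟨eps k Y a2 / eps k Y b2, ?_⟩
      rw [map_div₀, lft_eps, lft_eps, ha2, hb2, ← hxa]
      exact mul_div_cancel_right₀ _ ((map_ne_zero_iff _ (eps_inj k K)).2 hb'0)
    · rintro ⟨y, rfl⟩ g
      obtain ⟨a, b, -, rfl⟩ := eps_frac k Y y
      rw [map_div₀, map_div₀, lft_eps, lft_eps, act_eps, act_eps,
        (tl_fix ι ρ hι _).2 ⟨a, rfl⟩ g, (tl_fix ι ρ hι _).2 ⟨b, rfl⟩ g]

end act

theorem t_EXT2 : S_EXT2 := by
  intro k Y K G _ _ _ _ _ _ _ ι ρ hι
  exact ⟨KK Y, KK K, inferInstance, inferInstance, inferInstance, inferInstance,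
    lft (ph ι) (ph_inj ι), eps k Y, eps k K, act ρ, t_ext2m ι ρ hι⟩

end Pool.Agent.Y949.H
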