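import Pool.Agent.Y223.G.Stm11
import Pool.Agent.Y356.H.Che

/-!
# Project G (helper223), job W6-CHW: assembly of the chart theorem `S_CHW`

An adaptation of the file Che of Y356 to general graded algebras at the wild primes.
-/

set_option autoImplicit false

namespace Pool.Agent.Y949.H

open Pool.Agent.Y223.G IsLocalRing
open Pool.Agent.Y356.H (R2_mem R2_pos R2_neg R2_stable)

theorem t_CHW : S_STEPG → S_RECHW → S_R2CH → S_REINW → S_CHW := by
  intro hSTEP hRECH hR2CH hREIN k O K K₂ G _ _ _ _ _ _ _ _ _ _ _ _ _ _ ε hε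
    ρ ρ₂ hρ T N _ 𝔔 p l τ π hL C R hW K' _ _ ι hι
  obtain ⟨hCh, hSt⟩ := hRECH k O K G ρ T N 𝔔 p l τ π hL C R hW
  have hπ0 : algebraMap O K π ≠ 0 := fun h => hL.p0 (hL.inj (h.trans (map_zero _).symm))
  have hO : ∀ o : O, hm 0 (algebraMap O K o) ∈ RX k C R := fun o =>
    Algebra.mem_inf.2 ⟨RR_c one_pos (Subalgebra.algebraMap_mem _ _),
      Algebra.mem_iInf.2 fun i => hW.c0 i _ (Subalgebra.algebraMap_mem _ _)⟩
  refine hSTEP k K₂ K' ι G ρ₂ hι (R2 ε (RX k C R) (algebraMap O K π))
    (hR2CH k K K₂ ε hε _ hCh _ hπ0) ?_ ?_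
    (hREIN k O K K₂ G ε hε ρ ρ₂ hρ T N 𝔔 p l τ π hL C R hW _ rfl)
  · -- stability
    intro g
    obtain ⟨w, hw⟩ := hL.wi g
    obtain ⟨w', hw'⟩ := hL.wi g⁻¹
    have hTT : ∀ o, T g (T g⁻¹ o) = o := by
      intro o
      have h1 : (T g * T g⁻¹) o = o := by
        rw [← map_mul, mul_inv_cancel, map_one]
        rfl
      exact h1
    have hww : w * T g w' = 1 := by
      have h1 := hTT π
      rw [hw', map_mul, hw] at h1
      have h2 : (w * T g w') * π = 1 * π := by
        rw [one_mul]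
        calc (w * T g w') * π = T g w' * (w * π) := by ring
          _ = π := h1
      exact mul_right_cancel₀ hL.p0 h2
    refine R2_stable (σ := ρ g) (hρ g) (hSt g) (w := algebraMap O K w)
      (w' := algebraMap O K (T g w')) ?_ ?_ (hO _) (hO _)
    · rw [hL.com, hw, map_mul]
    · rw [← map_mul, hww, map_one]
  · -- faithfulness
    intro g hg
    have hfix : ∀ o, T g o = o := by
      intro o
      apply hL.inj
      rw [← hL.com]
      have h1 := hg _ (R2_mem (hO o))
      rw [tl_hm, hρ, tl_hm] at h1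
      exact hm_inj (hε.inj (hm_inj h1))
    apply hL.al ⊥ Ideal.isPrime_bot (fun i h => hL.ne i h.symm)
    · intro o
      rw [Ideal.mem_bot, sub_eq_zero]
      exact hfix o
    · intro w hw
      rw [Ideal.mem_bot, sub_eq_zero]
      rw [hfix] at hw
      exact mul_right_cancel₀ hL.p0 (by rw [one_mul]; exact hw.symm)

end Pool.Agent.Y949.H
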